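import Mathlib

open Finset Equiv

namespace Pool.Agent.Results.MP_cf7092_nt.Perm

lemma sum_fixed {X : Type} [Fintype X] [DecidableEq X] {p : ℕ} [Fact p.Prime] (T : X → X)
    (hT : T^[p] = id) (f : X → ZMod p) (hf : ∀ x, f (T x) = f x) :
    ∑ x, f x = ∑ x with T x = x, f x := by
  rw [← sum_fiberwise univ f, ← sum_fiberwise (filter _ _) f]
  refine sum_congr rfl fun v _ => ?_
  rw [sum_congr rfl (g := fun _ => v) fun x hx => (mem_filter.1 hx).2,
    sum_congr rfl (f := f) (g := fun _ => v) fun x hx => (mem_filter.1 hx).2, sum_const, sum_const,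
    nsmul_eq_mul, nsmul_eq_mul]
  congr 1
  let S : Function.End {x // f x = v} := fun x => ⟨T x, (hf x).trans x.2⟩
  have h1 : ∀ n x, ((S ^ n) x).1 = T^[n] x := fun n => by
    induction n with
    | zero => intro x; rfl
    | succ n ih => intro x; rw [pow_succ, Function.iterate_succ_apply]; exact ih (S x)
  have := Perm.card_fixedPoints_modEq (p := p) (n := 1) (f := S)
    (funext fun x => Subtype.ext (by rw [h1, pow_one, hT]; rfl))
  rw [Fintype.card_subtype] at this
  rw [(ZMod.natCast_eq_natCast_iff _ _ _).2 this, ← Set.toFinset_card]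
  congr 1
  refine card_bij (fun x _ => x.1) (fun x hx => ?_) (fun _ _ _ _ => Subtype.ext) fun x hx => ?_
  · have : S x = x := (Set.mem_toFinset (s := Function.fixedPoints S)).1 hx
    simpa using ⟨congrArg Subtype.val this, x.2⟩
  · simp only [mem_filter, mem_univ, true_and] at hx
    have : S ⟨x, hx.2⟩ = ⟨x, hx.2⟩ := Subtype.ext hx.1
    exact ⟨⟨x, hx.2⟩, Set.mem_toFinset.2 this, rfl⟩

variable {n : ℕ}

def g (a b : Fin (n + 1)) : ZMod (n + 1) := ((|(a : ℤ) - b| : ℤ) : ZMod (n + 1))

def t (a : Fin (n + 1)) : ZMod (n + 1) := if a = Fin.last n then -1 else 1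

lemma n1 : (n : ZMod (n + 1)) + 1 = 0 := by exact_mod_cast ZMod.natCast_self (n + 1)

lemma g_succ (a b : Fin (n + 1)) : g (a + 1) (b + 1) = t a * t b * g a b := by
  have ha := a.2
  have hb := b.2
  simp only [g, t, Fin.val_add_one]
  split_ifs with h1 h2 h2
  · simp [h1, h2]
  · rw [h1, Fin.val_last, abs_of_nonpos (by omega), abs_of_nonneg (by omega)]
    push_cast
    linear_combination n1 (n := n)
  · rw [h2, Fin.val_last, abs_of_nonneg (by omega), abs_of_nonpos (by omega)]
    push_cast
    linear_combination n1 (n := n)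
  · push_cast
    simp

lemma shift (a : Fin (n + 1)) : ∏ i, g (i + a) i = (-1) ^ (a : ℕ) * (a : ℕ) ^ (n + 1) := by
  have ha := a.2
  obtain ⟨b, hb⟩ : ∃ b, n + 1 = b + a := ⟨n + 1 - a, by omega⟩
  have h : ∀ i : Fin (n + 1), g (i + a) i = if (i : ℕ) < b then ((a : ℕ) : ZMod (n + 1)) else -(a : ℕ) := by
    intro i
    have hi := i.2
    rw [g, Fin.val_add_eq_ite]
    split_ifs with h1 h2 h2
    · omega
    · rw [Nat.cast_sub h1, abs_of_nonpos (by omega)]
      push_cast
      linear_combination n1 (n := n)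
    · rw [abs_of_nonneg (by omega)]; simp
    · omega
  simp only [h]
  rw [Fin.prod_univ_eq_prod_range fun i => if i < b then ((a : ℕ) : ZMod (n + 1)) else -(a : ℕ)]
  rw [congrArg range hb, prod_range_add, prod_congr rfl fun i hi => if_pos (mem_range.1 hi),
    prod_congr rfl fun i _ => if_neg (by omega), prod_const, prod_const, card_range, card_range,
    neg_pow, mul_left_comm, ← pow_add, ← hb]

lemma alt (m : ℕ) : 2 * ∑ a ∈ range (2 * m + 1), (-1 : ℤ) ^ a * a + 1 = (2 * m + 1 : ℕ) := by
  induction m with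
  | zero => simp
  | succ m ih =>
    rw [show 2 * (m + 1) + 1 = 2 * m + 1 + 1 + 1 by ring, sum_range_succ, sum_range_succ, pow_succ,
      pow_succ, pow_succ, pow_mul, neg_one_sq, one_pow]
    push_cast at ih ⊢
    linear_combination ih

theorem result (p : ℕ) (hp : p.Prime) (h2 : Odd p) :
    (p : ℤ) ∣ 2 * (Matrix.of fun j k : Fin p => |(j : ℤ) - k|).permanent + 1 := by
  obtain ⟨n, rfl⟩ := Nat.exists_eq_succ_of_ne_zero hp.ne_zero
  have := Fact.mk hp
  rw [← ZMod.intCast_zmod_eq_zero_iff_dvd]
  let T : Perm (Fin (n + 1)) → Perm (Fin (n + 1)) := fun s =>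
    Equiv.addRight 1 * s * (Equiv.addRight 1)⁻¹
  have hT : T^[n + 1] = id := by
    have : ∀ k s, T^[k] s = Equiv.addRight 1 ^ k * s * (Equiv.addRight 1 ^ k)⁻¹ := fun k => by
      induction k with
      | zero => simp
      | succ k ih => intro s; rw [Function.iterate_succ_apply', ih, pow_succ']; simp only [T]; group
    funext s
    have h0 : ∀ k : ℕ, Equiv.addRight (1 : Fin (n + 1)) ^ k = Equiv.addRight (k • 1) := fun k => by
      induction k with
      | zero => simp
      | succ k ih => rw [pow_succ', ih, succ_nsmul]; ext i; simp [add_assoc]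
    have h1 : (n + 1) • (1 : Fin (n + 1)) = 0 := by
      simpa using card_nsmul_eq_zero (x := (1 : Fin (n + 1)))
    rw [this, h0, h1]
    ext i
    simp
  have h1 := sum_fixed T hT (fun s => ∏ i, g (s i) i) fun s => by
    rw [← Equiv.prod_comp (Equiv.addRight 1)]
    simp only [T, Perm.mul_apply, Perm.coe_inv, symm_apply_apply]
    simp only [coe_addRight, g_succ, prod_mul_distrib, Equiv.prod_comp s t]
    rw [← prod_mul_distrib, prod_eq_one fun i _ => by unfold t; split_ifs <;> simp, one_mul]
  have h3 : ∑ s with T s = s, ∏ i, g (s i) i = ∑ a : Fin (n + 1), ∏ i, g (i + a) i := by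
    symm
    refine sum_bij (fun a _ => Equiv.addRight a) (fun a _ => ?_) (fun a _ b _ h => ?_)
      (fun s hs => ⟨s 0, mem_univ _, ?_⟩) fun _ _ => rfl
    · simp only [T, mem_filter, mem_univ, true_and, mul_inv_eq_iff_eq_mul]
      ext i; simp [add_right_comm]
    · simpa using congrArg (· 0) h
    · simp only [T, mem_filter, mem_univ, true_and, mul_inv_eq_iff_eq_mul] at hs
      have hs' : ∀ i, s i + 1 = s (i + 1) := fun i => congrArg (· i) hs
      refine Equiv.ext fun i => ?_
      induction i using Fin.induction with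
      | zero => simp
      | succ i ih => rw [← Fin.coeSucc_eq_succ, ← hs', ← ih]; simp [add_right_comm]
  obtain ⟨m, hm⟩ := h2
  have h4 := congrArg (Int.cast : ℤ → ZMod (n + 1)) (alt m)
  rw [← hm] at h4
  simp only [shift, ZMod.pow_card] at h3
  rw [Fin.sum_univ_eq_sum_range fun a => (-1) ^ a * (a : ZMod (n + 1)), ← h1] at h3
  push_cast at h4
  rw [← h3, n1] at h4
  rw [← h4, Matrix.permanent]
  push_cast
  rfl

end Pool.Agent.Results.MP_cf7092_nt.Perm
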